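import Mathlib
import Pool.Agent.H68.RJ.RamDefs
import Pool.Agent.H68.RJ.RQ

/-!
# Morphisms from curves with one place at infinity to the surface of Ramanujam and its powers

`coordinateRing k` is the coordinate ring of the surface of Ramanujam `X` over the algebraically
closed field `k` of characteristic zero (over `ℂ` a smooth contractible affine surface of logarithmic
general type), see `Pool.Agent.H68.RJ.RamDefs`. `PowerRing k n` is the coordinate ring of `X ^ n`.

The earlier run proved that no closed irreducible curve in `X`, `k = ℂ`, has exactly one place at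
infinity. We show that each morphism to `X` or to `X ^ n` from an irreducible affine scheme with at
most one point at infinity is constant, over every `k`; so `X ^ n`, a smooth contractible affine
variety of dimension `2 n` (for `k = ℂ`), contains no once-punctured curve, and receives no
non-constant morphism from one.

The part for the morphisms with a nontrivial kernel is the proof of the earlier run
(`Pool.Agent.W512`), transferred from `ℂ` to `k`.
-/

set_option autoImplicit false

namespace Pool.Agent.Results.MP_f311df_ag.PowersAndMorphisms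

open scoped TensorProduct
open Pool.Agent.H68.RJ.Ramanujam Pool.Agent.H68.RJ.Ram

universe u v

/-- the coordinate ring of the `n`-th power of the surface of Ramanujam -/
abbrev PowerRing (k : Type u) [Field k] (n : ℕ) : Type u := ⨂[k] _ : Fin n, coordinateRing k

/-- Each morphism to `Spec R` from an irreducible affine scheme `Spec B` over `k` with at most one
point at infinity is constant: the regular functions on `Spec R` are constant on `Spec B`. -/
def OnlyConstant (k : Type u) [Field k] (R : Type u) [CommRing R] [Algebra k R] : Prop :=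
  ∀ (B : Type v) [CommRing B] [IsDomain B] [Algebra k B],
    (pointsAtInfinity k B).Subsingleton → ∀ φ : R →ₐ[k] B, φ.range = ⊥

/-- Each irreducible closed subset of `Spec R` that is not a point has at least two points at
infinity. -/
def TwoPoints (k : Type u) [Field k] (R : Type u) [CommRing R] [Algebra k R] : Prop :=
  ∀ (𝔭 : Ideal R) [𝔭.IsPrime], ¬ 𝔭.IsMaximal →
    ∃ V ∈ pointsAtInfinity k (R ⧸ 𝔭), ∃ V' ∈ pointsAtInfinity k (R ⧸ 𝔭), V ≠ V'

lemma twoPoints_of {k : Type u} [Field k] {R : Type u} [CommRing R] [Algebra k R]
    (h : OnlyConstant.{u, u} k R) : TwoPoints k R := by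
  intro 𝔭 _ hm
  by_contra hV
  push Not at hV
  have hs : (pointsAtInfinity k (R ⧸ 𝔭)).Subsingleton := fun V h1 V' h2 => hV V h1 V' h2
  have hr := h (R ⧸ 𝔭) hs (Ideal.Quotient.mkₐ k 𝔭)
  apply hm
  apply Ideal.Quotient.maximal_of_isField
  have hex : ∀ b : R ⧸ 𝔭, ∃ z : k, b = algebraMap k (R ⧸ 𝔭) z := by
    intro b
    obtain ⟨a, rfl⟩ := Ideal.Quotient.mk_surjective b
    have h1 : Ideal.Quotient.mk 𝔭 a ∈ (Ideal.Quotient.mkₐ k 𝔭).range := ⟨a, rfl⟩
    rw [hr, Algebra.mem_bot] at h1
    obtain ⟨z, hz⟩ := h1
    exact ⟨z, hz.symm⟩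
  refine ⟨⟨0, 1, zero_ne_one⟩, mul_comm, ?_⟩
  intro b hb
  obtain ⟨z, rfl⟩ := hex b
  refine ⟨algebraMap k (R ⧸ 𝔭) z⁻¹, ?_⟩
  rw [← map_mul, mul_inv_cancel₀, map_one]
  rintro rfl
  exact hb (map_zero _)

lemma onlyConstant_X (k : Type u) [Field k] [IsAlgClosed k] [CharZero k] :
    OnlyConstant.{u, v} k (coordinateRing k) := by
  intro B _ _ _ hB φ
  rw [eq_bot_iff]
  rintro _ ⟨a, rfl⟩
  obtain ⟨z, hz⟩ := const_hom B hB φ a
  exact Algebra.mem_bot.2 ⟨z, hz.symm⟩

lemma onlyConstant_power (k : Type u) [Field k] [IsAlgClosed k] [CharZero k] (n : ℕ) :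
    OnlyConstant.{u, v} k (PowerRing k n) := by
  intro B _ _ _ hB φ
  rw [eq_bot_iff]
  rintro _ ⟨a, rfl⟩
  obtain ⟨z, hz⟩ := const_hom_gen (PowerRing k n) _ (pi_gen n) B hB φ a
  exact Algebra.mem_bot.2 ⟨z, hz.symm⟩

/-- Let `k` be an algebraically closed field of characteristic zero and let `X` be the surface of
Ramanujam over `k`. Each morphism from an irreducible affine curve (or scheme) over `k` with at most
one point at infinity to `X` or to a power `X ^ n` is constant, and each irreducible closed curve
(or subvariety of positive dimension) in `X` or in `X ^ n` has at least two points at infinity. -/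
theorem result (k : Type u) [Field k] [IsAlgClosed k] [CharZero k] :
    (OnlyConstant.{u, v} k (coordinateRing k) ∧ TwoPoints k (coordinateRing k)) ∧
      ∀ n : ℕ, OnlyConstant.{u, v} k (PowerRing k n) ∧ TwoPoints k (PowerRing k n) :=
  ⟨⟨onlyConstant_X k, twoPoints_of (onlyConstant_X k)⟩,
    fun n => ⟨onlyConstant_power k n, twoPoints_of (onlyConstant_power k n)⟩⟩

end Pool.Agent.Results.MP_f311df_ag.PowersAndMorphisms
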